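import Mathlib

/-!
# Centralizers in free groups are cyclic
-/

namespace Pool.Agent.X225.Ef

open FreeGroup

theorem aux_word {α : Type*} {a : FreeGroup α} {p : α}
    (h : FreeGroup.of p * a = a * FreeGroup.of p) (ha : a ≠ 1) :
    ∃ b t, a = FreeGroup.mk ((p, b) :: t) := by
  classical
  have hw : a.toWord ≠ [] := fun h1 => ha (toWord_eq_nil_iff.1 h1)
  obtain ⟨⟨x, b⟩, t, hxt⟩ := List.exists_cons_of_ne_nil hw
  by_cases hpx : p = x
  · subst hpx
    exact ⟨b, t, by rw [← hxt, mk_toWord]⟩
  · exfalso
    have h1 : (FreeGroup.of p * a).toWord = (p, true) :: a.toWord := by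
      rw [toWord_mul, toWord_of]
      change reduce ((p, true) :: a.toWord) = _
      rw [reduce.cons, reduce_toWord, hxt]
      simp [hpx]
    have h2 := toWord_mul_sublist a (FreeGroup.of p)
    rw [← h, h1, toWord_of] at h2
    have h3 := h2.eq_of_length (by simp)
    rw [hxt] at h3
    simp only [List.cons_append, List.cons.injEq, Prod.mk.injEq] at h3
    exact hpx h3.1.1

theorem center_free {α : Type*} {a : FreeGroup α} (ha : a ≠ 1)
    (h : ∀ p, FreeGroup.of p * a = a * FreeGroup.of p) : Subsingleton α := by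
  classical
  constructor
  intro p q
  have hw : a.toWord ≠ [] := fun h1 => ha (toWord_eq_nil_iff.1 h1)
  obtain ⟨⟨x, b⟩, t, hxt⟩ := List.exists_cons_of_ne_nil hw
  have key : ∀ p, p = x := by
    intro p
    by_contra hpx
    have h1 : (FreeGroup.of p * a).toWord = (p, true) :: a.toWord := by
      rw [toWord_mul, toWord_of]
      change reduce ((p, true) :: a.toWord) = _
      rw [reduce.cons, reduce_toWord, hxt]
      simp [hpx]
    have h2 := toWord_mul_sublist a (FreeGroup.of p)
    rw [← h p, h1, toWord_of] at h2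
    have h3 := h2.eq_of_length (by simp)
    rw [hxt] at h3
    simp only [List.cons_append, List.cons.injEq, Prod.mk.injEq] at h3
    exact hpx h3.1.1
  rw [key p, key q]

/-- the elements commuting with a nontrivial element of a free group are the powers of one element -/
theorem exists_root {G : Type} [Group G] [IsFreeGroup G] {a : G} (ha : a ≠ 1) :
    ∃ c : G, ∀ x, a * x = x * a → ∃ k : ℤ, x = c ^ k := by
  let C : Subgroup G := Subgroup.centralizer {a}
  haveI : IsFreeGroup C := subgroupIsFreeOfIsFree C
  have haC : a ∈ C := by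
    rw [Subgroup.mem_centralizer_iff]
    rintro x rfl; rfl
  let e := IsFreeGroup.toFreeGroup C
  let a' : FreeGroup (IsFreeGroup.Generators C) := e ⟨a, haC⟩
  have ha' : a' ≠ 1 := by
    intro h1
    apply ha
    have : (⟨a, haC⟩ : C) = 1 := by
      apply e.injective
      rw [_root_.map_one]; exact h1
    exact congrArg Subtype.val this
  have hsub : Subsingleton (IsFreeGroup.Generators C) := by
    apply center_free ha'
    intro p
    obtain ⟨y, hy⟩ := e.surjective (FreeGroup.of p)
    rw [← hy]
    change e y * e ⟨a, haC⟩ = e ⟨a, haC⟩ * e y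
    rw [← _root_.map_mul, ← _root_.map_mul]
    congr 1
    apply Subtype.ext
    have := (Subgroup.mem_centralizer_iff.1 y.2) a rfl
    exact this.symm
  by_cases hne : Nonempty (IsFreeGroup.Generators C)
  · obtain ⟨p⟩ := hne
    refine ⟨(e.symm (FreeGroup.of p)).1, ?_⟩
    intro x hx
    have hxC : x ∈ C := by
      rw [Subgroup.mem_centralizer_iff]
      rintro y rfl
      exact hx
    have h1 : ∀ z : FreeGroup (IsFreeGroup.Generators C), ∃ k : ℤ, z = FreeGroup.of p ^ k := by
      intro z
      induction z using FreeGroup.induction_on with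
      | C1 => exact ⟨0, by simp⟩
      | of x => exact ⟨1, by rw [Subsingleton.elim x p]; simp⟩
      | inv_of x _ => exact ⟨-1, by rw [Subsingleton.elim x p]; simp⟩
      | mul x y hx hy =>
        obtain ⟨k, rfl⟩ := hx
        obtain ⟨l, rfl⟩ := hy
        exact ⟨k + l, by rw [zpow_add]⟩
    obtain ⟨k, hk⟩ := h1 (e ⟨x, hxC⟩)
    refine ⟨k, ?_⟩
    have h2 : (⟨x, hxC⟩ : C) = (e.symm (FreeGroup.of p)) ^ k := by
      rw [← _root_.map_zpow, ← hk, MulEquiv.symm_apply_apply]
    exact congrArg Subtype.val h2
  · exfalso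
    haveI : IsEmpty (IsFreeGroup.Generators C) := not_nonempty_iff.1 hne
    exact ha' (Subsingleton.elim _ _)

/-- free groups have no torsion -/
theorem pow_ne_one_of {α : Type*} {a : FreeGroup α} (ha : a ≠ 1) {k : ℤ} (hk : k ≠ 0) :
    a ^ k ≠ 1 := by
  intro h
  apply ha
  exact zpow_left_injective hk (by change a ^ k = 1 ^ k; rw [h, one_zpow])

end Pool.Agent.X225.Ef
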