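import Mathlib

/-!
# Equational Noetherianity of the free group of rank two
-/

namespace Pool.Agent.X225.Ef

open Matrix

/-! ### a faithful representation of the free group of rank two -/

/-- nonzero integral vectors -/
abbrev Vec : Type := {v : ℤ × ℤ // v ≠ 0}

theorem vec_ne {x y : ℤ} (h : (x, y) ≠ 0) : 0 < x ^ 2 + y ^ 2 := by
  by_contra h1
  apply h
  have hx : x = 0 := by nlinarith [sq_nonneg x, sq_nonneg y]
  have hy : y = 0 := by nlinarith [sq_nonneg x, sq_nonneg y]
  rw [hx, hy]; rfl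

instance : MulAction (SpecialLinearGroup (Fin 2) ℤ) (ℤ × ℤ) where
  smul g v := (g.1 0 0 * v.1 + g.1 0 1 * v.2, g.1 1 0 * v.1 + g.1 1 1 * v.2)
  one_smul v := by
    change (_, _) = v
    simp
  mul_smul g h v := by
    have e : ∀ i j, (g * h).1 i j = g.1 i 0 * h.1 0 j + g.1 i 1 * h.1 1 j := by
      intro i j
      change (g.1 * h.1) i j = _
      rw [Matrix.mul_apply, Fin.sum_univ_two]
    change ((g * h).1 0 0 * v.1 + (g * h).1 0 1 * v.2, (g * h).1 1 0 * v.1 + (g * h).1 1 1 * v.2) =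
      (g.1 0 0 * (h.1 0 0 * v.1 + h.1 0 1 * v.2) + g.1 0 1 * (h.1 1 0 * v.1 + h.1 1 1 * v.2),
        g.1 1 0 * (h.1 0 0 * v.1 + h.1 0 1 * v.2) + g.1 1 1 * (h.1 1 0 * v.1 + h.1 1 1 * v.2))
    rw [e, e, e, e]
    apply Prod.ext
    · change _ = _; ring
    · change _ = _; ring

theorem smul_def' (g : SpecialLinearGroup (Fin 2) ℤ) (v : ℤ × ℤ) :
    g • v = (g.1 0 0 * v.1 + g.1 0 1 * v.2, g.1 1 0 * v.1 + g.1 1 1 * v.2) := rfl

theorem smul_zero' (g : SpecialLinearGroup (Fin 2) ℤ) : g • (0 : ℤ × ℤ) = 0 := by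
  rw [smul_def']; simp

instance : MulAction (SpecialLinearGroup (Fin 2) ℤ) Vec where
  smul g v := ⟨g • v.1, by
    intro h
    apply v.2
    have h1 : g⁻¹ • g • v.1 = g⁻¹ • (0 : ℤ × ℤ) := by rw [h]
    rwa [smul_smul, inv_mul_cancel, one_smul, smul_zero'] at h1⟩
  one_smul v := Subtype.ext (one_smul _ v.1)
  mul_smul g h v := Subtype.ext (mul_smul g h v.1)

theorem smul_val (g : SpecialLinearGroup (Fin 2) ℤ) (v : Vec) : (g • v).1 = g • v.1 := rfl

/-- first generator -/
def ga : SpecialLinearGroup (Fin 2) ℤ := ⟨!![1, 3; 0, 1], by simp [Matrix.det_fin_two]⟩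
/-- second generator -/
def gb : SpecialLinearGroup (Fin 2) ℤ := ⟨!![1, 0; 3, 1], by simp [Matrix.det_fin_two]⟩

theorem ga_smul (x y : ℤ) : ga • (x, y) = (x + 3 * y, y) := by
  rw [smul_def']; simp [ga]
theorem gb_smul (x y : ℤ) : gb • (x, y) = (x, 3 * x + y) := by
  rw [smul_def']; simp [gb]
theorem ga_inv_smul (x y : ℤ) : ga⁻¹ • (x, y) = (x - 3 * y, y) := by
  rw [inv_smul_eq_iff, ga_smul]; simp
theorem gb_inv_smul (x y : ℤ) : gb⁻¹ • (x, y) = (x, y - 3 * x) := by
  rw [inv_smul_eq_iff, gb_smul]; simp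

/-- the two generators -/
def gen2 : Fin 2 → SpecialLinearGroup (Fin 2) ℤ := ![ga, gb]

/-- attracting sets -/
def XS : Fin 2 → Set Vec :=
  ![{v | v.1.2 ^ 2 < v.1.1 ^ 2 ∧ 0 ≤ v.1.1 * v.1.2},
    {v | v.1.1 ^ 2 < v.1.2 ^ 2 ∧ 0 ≤ v.1.1 * v.1.2}]

/-- attracting sets of the inverses -/
def YS : Fin 2 → Set Vec :=
  ![{v | v.1.2 ^ 2 < v.1.1 ^ 2 ∧ v.1.1 * v.1.2 < 0},
    {v | v.1.1 ^ 2 < v.1.2 ^ 2 ∧ v.1.1 * v.1.2 < 0}]

theorem faithful : Function.Injective (FreeGroup.lift gen2) := by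
  apply FreeGroup.injective_lift_of_ping_pong gen2 XS YS
  · intro i
    fin_cases i
    · exact ⟨⟨(1, 0), by simp⟩, by simp [XS]⟩
    · exact ⟨⟨(0, 1), by simp⟩, by simp [XS]⟩
  · intro i j hij
    rw [Function.onFun, Set.disjoint_left]
    intro v h1 h2
    fin_cases i <;> fin_cases j <;> simp_all [XS] <;> omega
  · intro i j hij
    rw [Function.onFun, Set.disjoint_left]
    intro v h1 h2
    fin_cases i <;> fin_cases j <;> simp_all [YS] <;> omega
  · intro i j
    rw [Set.disjoint_left]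
    intro v h1 h2
    fin_cases i <;> fin_cases j <;> simp_all [XS, YS] <;> omega
  · intro i
    rintro _ ⟨⟨⟨x, y⟩, hxy⟩, hv, rfl⟩
    have hne := vec_ne hxy
    have hs := sq_nonneg (x + y)
    have hx := sq_nonneg x
    have hy := sq_nonneg y
    fin_cases i
    · change ¬ (y ^ 2 < x ^ 2 ∧ x * y < 0) at hv
      change (ga • (x, y)).2 ^ 2 < (ga • (x, y)).1 ^ 2 ∧ 0 ≤ (ga • (x, y)).1 * (ga • (x, y)).2
      rw [ga_smul]
      by_cases h : x * y < 0
      · have h1 : x ^ 2 ≤ y ^ 2 := by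
          by_contra h2
          exact hv ⟨not_le.1 h2, h⟩
        constructor
        · change y ^ 2 < (x + 3 * y) ^ 2; nlinarith
        · change 0 ≤ (x + 3 * y) * y; nlinarith
      · constructor
        · change y ^ 2 < (x + 3 * y) ^ 2; nlinarith
        · change 0 ≤ (x + 3 * y) * y; nlinarith
    · change ¬ (x ^ 2 < y ^ 2 ∧ x * y < 0) at hv
      change (gb • (x, y)).1 ^ 2 < (gb • (x, y)).2 ^ 2 ∧ 0 ≤ (gb • (x, y)).1 * (gb • (x, y)).2
      rw [gb_smul]
      by_cases h : x * y < 0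
      · have h1 : y ^ 2 ≤ x ^ 2 := by
          by_contra h2
          exact hv ⟨not_le.1 h2, h⟩
        constructor
        · change x ^ 2 < (3 * x + y) ^ 2; nlinarith
        · change 0 ≤ x * (3 * x + y); nlinarith
      · constructor
        · change x ^ 2 < (3 * x + y) ^ 2; nlinarith
        · change 0 ≤ x * (3 * x + y); nlinarith
  · intro i
    rintro _ ⟨⟨⟨x, y⟩, hxy⟩, hv, rfl⟩
    have hne := vec_ne hxy
    have hs := sq_nonneg (x - y)
    have hx := sq_nonneg x
    have hy := sq_nonneg y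
    fin_cases i
    · change ¬ (y ^ 2 < x ^ 2 ∧ 0 ≤ x * y) at hv
      change (ga⁻¹ • (x, y)).2 ^ 2 < (ga⁻¹ • (x, y)).1 ^ 2 ∧
        (ga⁻¹ • (x, y)).1 * (ga⁻¹ • (x, y)).2 < 0
      rw [ga_inv_smul]
      by_cases h : 0 ≤ x * y
      · have h1 : x ^ 2 ≤ y ^ 2 := by
          by_contra h2
          exact hv ⟨not_le.1 h2, h⟩
        constructor
        · change y ^ 2 < (x - 3 * y) ^ 2; nlinarith
        · change (x - 3 * y) * y < 0; nlinarith
      · constructor
        · change y ^ 2 < (x - 3 * y) ^ 2; nlinarith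
        · change (x - 3 * y) * y < 0; nlinarith
    · change ¬ (x ^ 2 < y ^ 2 ∧ 0 ≤ x * y) at hv
      change (gb⁻¹ • (x, y)).1 ^ 2 < (gb⁻¹ • (x, y)).2 ^ 2 ∧
        (gb⁻¹ • (x, y)).1 * (gb⁻¹ • (x, y)).2 < 0
      rw [gb_inv_smul]
      by_cases h : 0 ≤ x * y
      · have h1 : y ^ 2 ≤ x ^ 2 := by
          by_contra h2
          exact hv ⟨not_le.1 h2, h⟩
        constructor
        · change x ^ 2 < (y - 3 * x) ^ 2; nlinarith
        · change x * (y - 3 * x) < 0; nlinarith
      · constructor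
        · change x ^ 2 < (y - 3 * x) ^ 2; nlinarith
        · change x * (y - 3 * x) < 0; nlinarith

/-! ### equational Noetherianity -/

section Noeth

variable {σ : Type} {n : Type} [Fintype n] [DecidableEq n] {R : Type} [CommRing R]

/-- the generic matrix -/
noncomputable def genMat (R : Type) [CommRing R] (x : σ × Bool) :
    Matrix n n (MvPolynomial ((σ × Bool) × n × n) R) :=
  Matrix.of fun i j => MvPolynomial.X (x, i, j)

/-- the value of a word at the generic matrices -/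
noncomputable def wordMat (R : Type) [CommRing R] (w : FreeGroup σ) [DecidableEq σ] :
    Matrix n n (MvPolynomial ((σ × Bool) × n × n) R) :=
  (w.toWord.map (genMat R)).prod

/-- the evaluation at a tuple of invertible matrices -/
noncomputable def evalAt (h : σ → (Matrix n n R)ˣ) :
    MvPolynomial ((σ × Bool) × n × n) R →+* R :=
  MvPolynomial.eval fun p =>
    ((cond p.1.2 (h p.1.1) (h p.1.1)⁻¹ : (Matrix n n R)ˣ) : Matrix n n R) p.2.1 p.2.2

theorem evalAt_genMat (h : σ → (Matrix n n R)ˣ) (x : σ × Bool) :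
    (evalAt h).mapMatrix (genMat R x) =
      ((cond x.2 (h x.1) (h x.1)⁻¹ : (Matrix n n R)ˣ) : Matrix n n R) := by
  ext i j
  simp [evalAt, genMat]

theorem evalAt_wordMat [DecidableEq σ] (h : σ → (Matrix n n R)ˣ) (w : FreeGroup σ) :
    (evalAt h).mapMatrix (wordMat R w) = ((FreeGroup.lift h w : (Matrix n n R)ˣ) : Matrix n n R) := by
  conv_rhs => rw [← FreeGroup.mk_toWord (x := w)]
  rw [FreeGroup.lift_mk, wordMat, map_list_prod]
  rw [show ((List.map (fun x => cond x.2 (h x.1) (h x.1)⁻¹) w.toWord).prod : (Matrix n n R)ˣ).1 =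
    ((List.map (fun x => cond x.2 (h x.1) (h x.1)⁻¹) w.toWord).map
      (Units.coeHom (Matrix n n R))).prod from map_list_prod (Units.coeHom (Matrix n n R)) _]
  rw [List.map_map, List.map_map]
  congr 1
  apply List.map_congr_left
  intro x _
  exact evalAt_genMat h x

theorem equational_mat [IsNoetherianRing R] [Finite σ] (S : Set (FreeGroup σ)) :
    ∃ S₀ : Finset (FreeGroup σ), ↑S₀ ⊆ S ∧ ∀ h : σ → (Matrix n n R)ˣ,
      (∀ w ∈ S₀, FreeGroup.lift h w = 1) → ∀ w ∈ S, FreeGroup.lift h w = 1 := by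
  classical
  let P : Set (MvPolynomial ((σ × Bool) × n × n) R) :=
    {p | ∃ w ∈ S, ∃ i j, p = (wordMat R w - 1) i j}
  haveI : IsNoetherianRing (MvPolynomial ((σ × Bool) × n × n) R) := MvPolynomial.isNoetherianRing
  have hfg : (Submodule.span (MvPolynomial ((σ × Bool) × n × n) R) P).FG :=
    IsNoetherian.noetherian _
  obtain ⟨T, hT1, hT2⟩ := Submodule.fg_span_iff_fg_span_finset_subset P |>.1 hfg
  have hch : ∀ p : T, ∃ w ∈ S, ∃ i j, p.1 = (wordMat (n := n) R w - 1) i j := fun p => hT1 p.2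
  choose W hW1 hW2 using hch
  refine ⟨T.attach.image W, ?_, ?_⟩
  · intro w hw
    simp only [Finset.coe_image, Set.mem_image, Finset.mem_coe, Finset.mem_attach,
      true_and] at hw
    obtain ⟨p, rfl⟩ := hw
    exact hW1 p
  · intro h hh w hw
    have hker : ∀ p ∈ Submodule.span (MvPolynomial ((σ × Bool) × n × n) R) P, evalAt h p = 0 := by
      rw [hT2]
      intro p hp
      have : Submodule.span (MvPolynomial ((σ × Bool) × n × n) R)
          (T : Set (MvPolynomial ((σ × Bool) × n × n) R)) ≤ RingHom.ker (evalAt h) := by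
        apply Submodule.span_le.2
        intro q hq
        obtain ⟨i, j, hij⟩ := hW2 ⟨q, hq⟩
        change evalAt h q = 0
        have h1 : q = (wordMat (n := n) R (W ⟨q, hq⟩) - 1) i j := hij
        rw [h1]
        have h2 := evalAt_wordMat h (W ⟨q, hq⟩)
        rw [hh (W ⟨q, hq⟩) (Finset.mem_image_of_mem _ (Finset.mem_attach _ _))] at h2
        have h3 := congrFun (congrFun h2 i) j
        simp only [RingHom.mapMatrix_apply, Matrix.map_apply, Units.val_one] at h3
        rw [Matrix.sub_apply, map_sub, h3]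
        by_cases hij' : i = j
        · subst hij'; simp
        · simp [Matrix.one_apply_ne hij']
      exact this hp
    apply Units.ext
    rw [← evalAt_wordMat]
    ext i j
    have h4 : evalAt h ((wordMat (n := n) R w - 1) i j) = 0 :=
      hker _ (Submodule.subset_span ⟨w, hw, i, j, rfl⟩)
    rw [Matrix.sub_apply, map_sub, sub_eq_zero] at h4
    simp only [RingHom.mapMatrix_apply, Matrix.map_apply, Units.val_one]
    rw [h4]
    by_cases hij' : i = j
    · subst hij'; simp
    · simp [Matrix.one_apply_ne hij']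

end Noeth

/-- **The free group of rank two is equationally Noetherian.** -/
theorem equational {σ : Type} [Finite σ] (S : Set (FreeGroup σ)) :
    ∃ S₀ : Finset (FreeGroup σ), ↑S₀ ⊆ S ∧ ∀ h : σ → FreeGroup (Fin 2),
      (∀ w ∈ S₀, FreeGroup.lift h w = 1) → ∀ w ∈ S, FreeGroup.lift h w = 1 := by
  obtain ⟨S₀, h1, h2⟩ := equational_mat (n := Fin 2) (R := ℤ) S
  refine ⟨S₀, h1, ?_⟩
  intro h hh w hw
  let ρ : FreeGroup (Fin 2) →* (Matrix (Fin 2) (Fin 2) ℤ)ˣ :=
    (SpecialLinearGroup.toGL.comp (FreeGroup.lift gen2))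
  have hρ : Function.Injective ρ := by
    intro x y hxy
    apply faithful
    have : Function.Injective
      (SpecialLinearGroup.toGL : SpecialLinearGroup (Fin 2) ℤ →* GL (Fin 2) ℤ) := by
      intro a b hab
      apply Subtype.ext
      have := congrArg Units.val hab
      exact this
    exact this hxy
  have key : ∀ w : FreeGroup σ, FreeGroup.lift (ρ ∘ h) w = ρ (FreeGroup.lift h w) := by
    intro w
    have : FreeGroup.lift (ρ ∘ h) = ρ.comp (FreeGroup.lift h) := by
      ext x; simp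
    rw [this]; rfl
  apply hρ
  rw [← key, map_one]
  apply h2 (ρ ∘ h) _ w hw
  intro v hv
  rw [key, hh v hv, map_one]

end Pool.Agent.X225.Ef
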