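import Pool.Agent.X225.Ef.Hom
import Pool.Agent.X225.Ef.Lin
import Pool.Agent.X225.Ef.Cen

/-!
# Groups elementarily equivalent to the free group of rank two
-/

namespace Pool.Agent.X225.Ef

open FirstOrder FirstOrder.Language Filter

/-- function symbols of the language of groups -/
inductive GrpFun : ℕ → Type
  | mul : GrpFun 2
  | inv : GrpFun 1
  | one : GrpFun 0

/-- the first-order language of groups, with symbols `·`, `⁻¹`, `1` -/
def Lg : FirstOrder.Language.{0, 0} := ⟨GrpFun, fun _ => Empty⟩

/-- the operations of a group -/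
def grpOp (G : Type) [Group G] : ∀ {n : ℕ}, GrpFun n → (Fin n → G) → G
  | _, .mul, x => x 0 * x 1
  | _, .inv, x => (x 0)⁻¹
  | _, .one, _ => 1

/-- a group as a first-order structure -/
instance grpStr (G : Type) [Group G] : Lg.Structure G where
  funMap := fun f x => grpOp G f x
  RelMap := fun r _ => Empty.elim r

/-- the symbol `·` -/
abbrev fMul : Lg.Functions 2 := GrpFun.mul
/-- the symbol `⁻¹` -/
abbrev fInv : Lg.Functions 1 := GrpFun.inv
/-- the symbol `1` -/
abbrev fOne : Lg.Functions 0 := GrpFun.one

/-- the free group of rank two -/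
abbrev F2 : Type := FreeGroup (Fin 2)

/-- **Elementary free groups**: groups with the same first-order theory (in the language of groups) as
the free group of rank two. -/
def ElemFree (G : Type) [Group G] : Prop := Lg.completeTheory G = Lg.completeTheory F2

instance : Countable Lg.Symbols := by
  haveI : Countable (Σ n, Lg.Functions n) := by
    apply Function.Injective.countable (f := fun x : (Σ n, GrpFun n) => x.1)
    rintro ⟨_, a⟩ ⟨_, b⟩ h
    cases a <;> cases b <;> simp_all
  haveI : IsEmpty (Σ n, Lg.Relations n) := ⟨fun x => Empty.elim x.2⟩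
  change Countable ((Σ n, Lg.Functions n) ⊕ (Σ n, Lg.Relations n))
  infer_instance

/-! ### terms -/

/-- product of terms -/
def mulT {α : Type} (s t : Lg.Term α) : Lg.Term α := Term.func fMul ![s, t]
/-- inverse of a term -/
def invT {α : Type} (s : Lg.Term α) : Lg.Term α := Term.func fInv ![s]
/-- the neutral element -/
def oneT {α : Type} : Lg.Term α := Term.func fOne ![]

section Str

variable {M : Type} [Lg.Structure M]

/-- multiplication in a structure -/
def sm (x y : M) : M := Structure.funMap fMul ![x, y]
/-- inverse in a structure -/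
def si (x : M) : M := Structure.funMap fInv ![x]
/-- unit in a structure -/
def so : M := Structure.funMap fOne ![]

theorem realize_mulT' {α : Type} (s t : Lg.Term α) (v : α → M) :
    (mulT s t).realize v = sm (s.realize v) (t.realize v) := by
  change Structure.funMap fMul _ = Structure.funMap _ _
  congr 1
  funext i
  fin_cases i <;> rfl

theorem realize_invT' {α : Type} (s : Lg.Term α) (v : α → M) :
    (invT s).realize v = si (s.realize v) := by
  change Structure.funMap fInv _ = Structure.funMap _ _
  congr 1
  funext i
  fin_cases i; rfl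

theorem realize_oneT' {α : Type} (v : α → M) : (oneT : Lg.Term α).realize v = so := by
  change Structure.funMap fOne _ = Structure.funMap _ _
  congr 1
  funext i
  exact i.elim0

end Str

section GrpTerms

variable {G : Type} [Group G]

theorem sm_eq (x y : G) : sm x y = x * y := rfl
theorem si_eq (x : G) : si x = x⁻¹ := rfl
theorem so_eq : (so : G) = 1 := rfl

theorem realize_mulT {α : Type} (s t : Lg.Term α) (v : α → G) :
    (mulT s t).realize v = s.realize v * t.realize v := realize_mulT' s t v
theorem realize_invT {α : Type} (s : Lg.Term α) (v : α → G) :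
    (invT s).realize v = (s.realize v)⁻¹ := realize_invT' s v
theorem realize_oneT {α : Type} (v : α → G) : (oneT : Lg.Term α).realize v = 1 := realize_oneT' v

/-- the term of a word -/
def wt {α : Type} : List (α × Bool) → Lg.Term α
  | [] => oneT
  | (i, true) :: l => mulT (Term.var i) (wt l)
  | (i, false) :: l => mulT (invT (Term.var i)) (wt l)

theorem realize_wt {α : Type} (l : List (α × Bool)) (h : α → G) :
    (wt l).realize h = FreeGroup.lift h (FreeGroup.mk l) := by
  induction l with
  | nil => rw [wt, realize_oneT]; simp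
  | cons p l ih =>
    obtain ⟨i, b⟩ := p
    rw [FreeGroup.lift_mk] at ih ⊢
    cases b
    · rw [wt, realize_mulT, realize_invT, ih]; simp
    · rw [wt, realize_mulT, ih]; simp

/-- the formula `w(x) = 1` -/
def eqn {α : Type} [DecidableEq α] (w : FreeGroup α) : Lg.Formula α :=
  Term.equal (wt w.toWord) oneT

theorem realize_eqn {α : Type} [DecidableEq α] (w : FreeGroup α) (h : α → G) :
    (eqn w).Realize h ↔ FreeGroup.lift h w = 1 := by
  unfold eqn
  rw [Formula.realize_equal, realize_wt, realize_oneT, FreeGroup.mk_toWord]

end GrpTerms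

/-! ### structures elementarily equivalent to groups -/

theorem exists_group {G : Type} [inst : Lg.Structure G]
    (h : Lg.completeTheory G = Lg.completeTheory F2) : ∃ g : Group G, @grpStr G g = inst := by
  have assoc : ∀ x y z : G, sm (sm x y) z = sm x (sm y z) := by
    intro x y z
    have h1 := (all_iff h.symm (n := 3) (Term.equal
      (mulT (mulT (Term.var 0) (Term.var 1)) (Term.var 2))
      (mulT (Term.var 0) (mulT (Term.var 1) (Term.var 2))))).1 (by
        intro x
        rw [Formula.realize_equal]
        simp only [realize_mulT, mul_assoc]) ![x, y, z]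
    rw [Formula.realize_equal] at h1
    simp only [realize_mulT'] at h1
    exact h1
  have onemul : ∀ x : G, sm so x = x := by
    intro x
    have h1 := (all_iff h.symm (n := 1) (Term.equal
      (mulT oneT (Term.var 0)) (Term.var 0))).1 (by
        intro x
        rw [Formula.realize_equal]
        simp only [realize_mulT, realize_oneT, one_mul]) ![x]
    rw [Formula.realize_equal] at h1
    simp only [realize_mulT', realize_oneT'] at h1
    exact h1
  have invmul : ∀ x : G, sm (si x) x = so := by
    intro x
    have h1 := (all_iff h.symm (n := 1) (Term.equal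
      (mulT (invT (Term.var 0)) (Term.var 0)) oneT)).1 (by
        intro x
        rw [Formula.realize_equal]
        simp only [realize_mulT, realize_oneT, realize_invT, inv_mul_cancel]) ![x]
    rw [Formula.realize_equal] at h1
    simp only [realize_mulT', realize_oneT', realize_invT'] at h1
    exact h1
  letI : Mul G := ⟨sm⟩
  letI : One G := ⟨so⟩
  letI : Inv G := ⟨si⟩
  let g : Group G := Group.ofLeftAxioms assoc onemul invmul
  refine ⟨g, ?_⟩
  apply Structure.ext
  · funext n f x
    cases f with
    | mul =>
      change Structure.funMap fMul ![x 0, x 1] = _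
      congr 1
      funext i
      fin_cases i <;> rfl
    | inv =>
      change Structure.funMap fInv ![x 0] = _
      congr 1
      funext i
      fin_cases i; rfl
    | one =>
      change Structure.funMap fOne ![] = _
      congr 1
      funext i
      exact i.elim0
  · funext n r
    exact Empty.elim r

/-! ### finitely generated elementary free groups -/

/-- the radical of a finite system of equations over the free group of rank two -/
def Rad {n : ℕ} (S : Finset (FreeGroup (Fin n))) : Subgroup (FreeGroup (Fin n)) :=
  ⨅ h : {h : Fin n → F2 // ∀ w ∈ S, FreeGroup.lift h w = 1}, (FreeGroup.lift h.1).ker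

theorem mem_Rad {n : ℕ} (S : Finset (FreeGroup (Fin n))) (v : FreeGroup (Fin n)) :
    v ∈ Rad S ↔ ∀ h : Fin n → F2, (∀ w ∈ S, FreeGroup.lift h w = 1) → FreeGroup.lift h v = 1 := by
  unfold Rad
  rw [Subgroup.mem_iInf]
  constructor
  · intro h1 h h2
    exact h1 ⟨h, h2⟩
  · rintro h1 ⟨h, h2⟩
    exact h1 h h2

instance {n : ℕ} (S : Finset (FreeGroup (Fin n))) : (Rad S).Normal := by
  constructor
  intro v hv g
  rw [mem_Rad] at hv ⊢
  intro h hh
  rw [map_mul, map_mul, hv h hh, mul_one, ← map_mul, mul_inv_cancel, map_one]

theorem ker_eq_Rad {K : Type} [Group K] (hK : ElemFree K) {n : ℕ} (g : Fin n → K) :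
    ∃ S : Finset (FreeGroup (Fin n)), (FreeGroup.lift g).ker = Rad S := by
  classical
  obtain ⟨S, hS1, hS2⟩ := equational (σ := Fin n) ((FreeGroup.lift g).ker : Set (FreeGroup (Fin n)))
  refine ⟨S, ?_⟩
  ext v
  rw [mem_Rad]
  constructor
  · intro hv h hh
    exact hS2 h hh v hv
  · intro hv
    by_contra h1
    let φ : Lg.Formula (Fin n) := (Formula.iInf fun w : S => eqn w.1) ⊓ (eqn v).not
    have h2 : φ.Realize g := by
      rw [Formula.realize_inf, Formula.realize_iInf, Formula.realize_not, realize_eqn]
      refine ⟨fun w => ?_, h1⟩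
      rw [realize_eqn]
      exact hS1 w.2
    obtain ⟨h, h3⟩ := (ex_iff hK φ).1 ⟨g, h2⟩
    rw [Formula.realize_inf, Formula.realize_iInf, Formula.realize_not, realize_eqn] at h3
    apply h3.2
    apply hv h
    intro w hw
    have := h3.1 ⟨w, hw⟩
    rwa [realize_eqn] at this

theorem fg_gens {K : Type} [Group K] (h : Group.FG K) :
    ∃ (n : ℕ) (g : Fin n → K), Function.Surjective (FreeGroup.lift g) := by
  obtain ⟨S, hS⟩ := (Group.fg_def.1 h)
  refine ⟨S.card, fun i => (S.equivFin.symm i : K), ?_⟩
  rw [← MonoidHom.range_eq_top, FreeGroup.range_lift_eq_closure, ← hS]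
  congr 1
  ext x
  constructor
  · rintro ⟨i, rfl⟩
    exact (S.equivFin.symm i).2
  · intro hx
    exact ⟨S.equivFin ⟨x, hx⟩, by simp⟩

/-- finitely generated elementary free groups are residually free -/
theorem residual {K : Type} [Group K] (hK : ElemFree K) (hfg : Group.FG K) {x : K} (hx : x ≠ 1) :
    ∃ φ : K →* F2, φ x ≠ 1 := by
  obtain ⟨n, g, hg⟩ := fg_gens hfg
  obtain ⟨S, hS⟩ := ker_eq_Rad hK g
  obtain ⟨v, rfl⟩ := hg x
  have h1 : v ∉ Rad S := by
    rw [← hS]
    exact hx
  rw [mem_Rad] at h1
  push Not at h1
  obtain ⟨h, h2, h3⟩ := h1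
  have h4 : (FreeGroup.lift g).ker ≤ (FreeGroup.lift h).ker := by
    rw [hS]
    intro w hw
    exact (mem_Rad S w).1 hw h h2
  refine ⟨(FreeGroup.lift g).liftOfSurjective hg ⟨FreeGroup.lift h, h4⟩, ?_⟩
  have h5 : (FreeGroup.lift g).liftOfSurjective hg ⟨FreeGroup.lift h, h4⟩ (FreeGroup.lift g v) =
      FreeGroup.lift h v := by
    exact MonoidHom.liftOfRightInverse_comp_apply _ _ _ ⟨FreeGroup.lift h, h4⟩ v
  rw [h5]
  exact h3

end Pool.Agent.X225.Ef
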