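import Pool.Agent.X225.Ef.Sat

/-!
# Countable homogeneous elementary substructures
-/

namespace Pool.Agent.X225.Ef

open FirstOrder FirstOrder.Language Filter

section Closure

variable (L : FirstOrder.Language.{0, 0}) (N : Type) [L.Structure N] [Nonempty N]

/-- the language of the closure operations -/
def LC : FirstOrder.Language.{0, 0} :=
  ⟨fun n => L.Functions n ⊕ (L.BoundedFormula Empty (n + 1) ⊕ {k : ℕ // k + k + 1 = n}),
    fun _ => Empty⟩

instance [Countable L.Symbols] : Countable (Σ n, (LC L).Functions n) := by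
  haveI h1 : Countable (Σ n, L.Functions n) :=
    (Function.Injective.countable (f := fun x => (Sum.inl x : L.Symbols)) Sum.inl_injective)
  haveI h2 : ∀ n, Countable (L.Functions n) := fun n =>
    (Function.Injective.countable (f := fun x => (⟨n, x⟩ : Σ n, L.Functions n)) sigma_mk_injective)
  haveI h3 : ∀ n, Countable (L.BoundedFormula Empty n) := fun n =>
    (Function.Injective.countable (f := fun x => (⟨n, x⟩ : Σ n, L.BoundedFormula Empty n))
      sigma_mk_injective)
  haveI h4 : ∀ n, Countable ((LC L).Functions n) := fun n => by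
    change Countable (L.Functions n ⊕ (L.BoundedFormula Empty (n + 1) ⊕ {k : ℕ // k + k + 1 = n}))
    infer_instance
  infer_instance

variable {L N}

open Classical in
/-- the homogeneity function -/
noncomputable def homFun (H : ∀ (k : ℕ) (a b : Fin k → N), SameTp L a b → ∀ c : N,
    ∃ d : N, SameTp L (Fin.snoc a c : Fin (k + 1) → N) (Fin.snoc b d : Fin (k + 1) → N))
    (k : ℕ) (a b : Fin k → N) (c : N) : N :=
  if h : SameTp L a b then (H k a b h c).choose else Classical.arbitrary N

open Classical in
/-- the structure -/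
noncomputable def strC (H : ∀ (k : ℕ) (a b : Fin k → N), SameTp L a b → ∀ c : N,
    ∃ d : N, SameTp L (Fin.snoc a c : Fin (k + 1) → N) (Fin.snoc b d : Fin (k + 1) → N)) :
    (LC L).Structure N where
  funMap := fun {n} f x => match f with
    | .inl f => Structure.funMap (L := L) f x
    | .inr (.inl φ) => if h : ∃ y : N, φ.Realize default (Fin.snoc x y : Fin (n + 1) → N)
        then h.choose else Classical.arbitrary N
    | .inr (.inr k) => homFun H k.1
        (fun i => x ⟨i, by have := k.2; omega⟩)
        (fun i => x ⟨k.1 + i, by have := k.2; omega⟩)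
        (x ⟨k.1 + k.1, by have := k.2; omega⟩)
  RelMap := fun r _ => r.elim

/-- **Countable weakly homogeneous elementary substructures containing a given countable set.** -/
theorem exists_closed [Countable L.Symbols] (H : ∀ (k : ℕ) (a b : Fin k → N), SameTp L a b →
    ∀ c : N, ∃ d : N, SameTp L (Fin.snoc a c : Fin (k + 1) → N) (Fin.snoc b d : Fin (k + 1) → N))
    (X : Set N) (hX : X.Countable) :
    ∃ S : L.ElementarySubstructure N, X ⊆ S ∧ Countable S ∧
      ∀ (k : ℕ) (a b : Fin k → S), SameTp L a b → ∀ c : S,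
        ∃ d : S, SameTp L (Fin.snoc a c : Fin (k + 1) → S) (Fin.snoc b d : Fin (k + 1) → S) := by
  classical
  letI str := strC H
  let C : (LC L).Substructure N := Substructure.closure (LC L) X
  have hC : Countable C := Set.Countable.substructure_closure (LC L) hX
  let S₀ : L.Substructure N :=
    { carrier := C
      fun_mem := by
        intro n f x hx
        exact C.fun_mem (Sum.inl f) x hx }
  let S : L.ElementarySubstructure N := S₀.toElementarySubstructure (by
    intro n φ x a ha
    have hmem : ∀ i, ((↑) ∘ x : Fin n → N) i ∈ C := fun i => (x i).2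
    have h1 := C.fun_mem (Sum.inr (Sum.inl φ) : (LC L).Functions n) ((↑) ∘ x) hmem
    have h2 : ∃ y : N, φ.Realize default (Fin.snoc ((↑) ∘ x) y : Fin (n + 1) → N) := ⟨a, ha⟩
    refine ⟨⟨_, h1⟩, ?_⟩
    have h3 : (@Structure.funMap (LC L) N str n (Sum.inr (Sum.inl φ)) ((↑) ∘ x)) = h2.choose := by
      change (if h : ∃ y : N, φ.Realize default (Fin.snoc ((↑) ∘ x) y : Fin (n + 1) → N)
        then h.choose else Classical.arbitrary N) = _
      rw [dif_pos h2]
    have h4 := h2.choose_spec
    rw [← h3] at h4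
    exact h4)
  have hS : ∀ x, x ∈ S ↔ x ∈ C := fun x => Iff.rfl
  refine ⟨S, ?_, ?_, ?_⟩
  · intro x hx
    exact Substructure.subset_closure hx
  · exact hC
  · intro k a b hab c
    have hab' : SameTp L (fun i => (a i : N)) (fun i => (b i : N)) := by
      intro φ
      have h1 := S.subtype.map_formula φ a
      have h2 := S.subtype.map_formula φ b
      exact (h1.trans (hab φ)).trans h2.symm
    have hd := (H k _ _ hab' c).choose_spec
    have h1 : ((H k _ _ hab' (c : N)).choose : N) ∈ C := by
      let x : Fin (k + k + 1) → N := fun i =>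
        if h : (i : ℕ) < k then a ⟨i, h⟩ else if h2 : (i : ℕ) < k + k then b ⟨i - k, by omega⟩
          else c
      have hx : ∀ i, x i ∈ C := by
        intro i
        simp only [x]
        split_ifs
        · exact (a _).2
        · exact (b _).2
        · exact c.2
      have h2 := C.fun_mem (Sum.inr (Sum.inr ⟨k, rfl⟩) : (LC L).Functions (k + k + 1)) x hx
      have h3 : (@Structure.funMap (LC L) N str (k + k + 1) (Sum.inr (Sum.inr ⟨k, rfl⟩)) x) =
          homFun H k (fun i => x ⟨i, by omega⟩) (fun i => x ⟨k + i, by omega⟩)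
            (x ⟨k + k, by omega⟩) := rfl
      rw [h3] at h2
      have e1 : (fun i : Fin k => x ⟨i, by omega⟩) = fun i => (a i : N) := by
        funext i
        simp only [x]
        rw [dif_pos i.2]
      have e2 : (fun i : Fin k => x ⟨k + i, by omega⟩) = fun i => (b i : N) := by
        funext i
        simp only [x]
        rw [dif_neg (by omega), dif_pos (by omega)]
        congr 2
        apply Fin.ext
        simp
      have e3 : x ⟨k + k, by omega⟩ = c := by
        simp only [x]
        rw [dif_neg (by omega), dif_neg (by omega)]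
      rw [e1, e2, e3] at h2
      unfold homFun at h2
      rw [dif_pos hab'] at h2
      exact h2
    refine ⟨⟨_, h1⟩, ?_⟩
    intro φ
    have h4 := S.subtype.map_formula φ (Fin.snoc a c : Fin (k + 1) → S)
    have h5 := S.subtype.map_formula φ
      (Fin.snoc b (⟨_, h1⟩ : S) : Fin (k + 1) → S)
    rw [← h4, ← h5]
    have e4 : (S.subtype ∘ (Fin.snoc a c : Fin (k + 1) → S)) =
        (Fin.snoc (fun i => (a i : N)) (c : N) : Fin (k + 1) → N) := by
      funext i
      refine Fin.lastCases ?_ (fun i => ?_) i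
      · simp
      · simp
    have e5 : (S.subtype ∘ (Fin.snoc b (⟨_, h1⟩ : S) : Fin (k + 1) → S)) =
        (Fin.snoc (fun i => (b i : N)) ((H k _ _ hab' (c : N)).choose) : Fin (k + 1) → N) := by
      funext i
      refine Fin.lastCases ?_ (fun i => ?_) i
      · simp
      · simp
    rw [e4, e5]
    exact hd φ

end Closure

/-! ### back and forth -/

section BF

variable {G : Type} [Countable G]

theorem back_forth (R : ∀ n : ℕ, (Fin n → G) → (Fin n → G) → Prop)
    (hf : ∀ n a b, R n a b → ∀ c, ∃ d, R (n + 1) (Fin.snoc a c) (Fin.snoc b d))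
    (hb : ∀ n a b, R n a b → ∀ d, ∃ c, R (n + 1) (Fin.snoc a c) (Fin.snoc b d))
    (k : ℕ) (a b : Fin k → G) (hab : R k a b) [Nonempty G] :
    ∃ u v : ℕ → G, (∀ i : Fin k, u i = a i ∧ v i = b i) ∧
      (∀ m, R (k + m) (fun i => u i) (fun i => v i)) ∧
      (∀ g, ∃ i, u i = g) ∧ (∀ g, ∃ i, v i = g) := by
  classical
  obtain ⟨e, he⟩ := exists_surjective_nat G
  let St : ℕ → Type := fun m => {p : (ℕ → G) × (ℕ → G) // R (k + m) (fun i => p.1 i) (fun i => p.2 i)}
  have upd : ∀ (n : ℕ) (u : ℕ → G) (c : G),
      (fun i : Fin (n + 1) => Function.update u n c i) =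
        (Fin.snoc (fun i : Fin n => u i) c : Fin (n + 1) → G) := by
    intro n u c
    funext i
    refine Fin.lastCases ?_ (fun i => ?_) i
    · simp
    · simp only [Fin.val_castSucc, Fin.snoc_castSucc]
      exact Function.update_of_ne (ne_of_lt i.2) _ _
  have stepF : ∀ m (p : St m) (c : G), ∃ q : St (m + 1), q.1.1 = Function.update p.1.1 (k + m) c ∧
      ∃ d, q.1.2 = Function.update p.1.2 (k + m) d := by
    intro m p c
    obtain ⟨d, hd⟩ := hf _ _ _ p.2 c
    refine ⟨⟨(Function.update p.1.1 (k + m) c, Function.update p.1.2 (k + m) d), ?_⟩, rfl, d, rfl⟩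
    change R (k + m + 1) (fun i : Fin (k + m + 1) => Function.update p.1.1 (k + m) c i)
      (fun i : Fin (k + m + 1) => Function.update p.1.2 (k + m) d i)
    rw [upd, upd]
    exact hd
  have stepB : ∀ m (p : St m) (d : G), ∃ q : St (m + 1), q.1.2 = Function.update p.1.2 (k + m) d ∧
      ∃ c, q.1.1 = Function.update p.1.1 (k + m) c := by
    intro m p d
    obtain ⟨c, hd⟩ := hb _ _ _ p.2 d
    refine ⟨⟨(Function.update p.1.1 (k + m) c, Function.update p.1.2 (k + m) d), ?_⟩, rfl, c, rfl⟩
    change R (k + m + 1) (fun i : Fin (k + m + 1) => Function.update p.1.1 (k + m) c i)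
      (fun i : Fin (k + m + 1) => Function.update p.1.2 (k + m) d i)
    rw [upd, upd]
    exact hd
  have step : ∀ m (p : St m), ∃ q : St (m + 1),
      (∀ i < k + m, q.1.1 i = p.1.1 i ∧ q.1.2 i = p.1.2 i) ∧
      (m % 2 = 0 → q.1.1 (k + m) = e (m / 2)) ∧ (m % 2 = 1 → q.1.2 (k + m) = e (m / 2)) := by
    intro m p
    rcases Nat.mod_two_eq_zero_or_one m with hm | hm
    · obtain ⟨q, h1, d, h2⟩ := stepF m p (e (m / 2))
      refine ⟨q, ?_, ?_, ?_⟩
      · intro i hi
        rw [h1, h2]
        exact ⟨Function.update_of_ne (ne_of_lt hi) _ _, Function.update_of_ne (ne_of_lt hi) _ _⟩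
      · intro _
        rw [h1]; simp
      · intro h; omega
    · obtain ⟨q, h1, d, h2⟩ := stepB m p (e (m / 2))
      refine ⟨q, ?_, ?_, ?_⟩
      · intro i hi
        rw [h1, h2]
        exact ⟨Function.update_of_ne (ne_of_lt hi) _ _, Function.update_of_ne (ne_of_lt hi) _ _⟩
      · intro h; omega
      · intro _
        rw [h1]; simp
  choose nx hnx1 hnx2 hnx3 using step
  let g₀ : G := Classical.arbitrary G
  let s₀ : St 0 := ⟨(fun i => if h : i < k then a ⟨i, h⟩ else g₀,
      fun i => if h : i < k then b ⟨i, h⟩ else g₀), by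
    change R k (fun i : Fin k => if h : (i : ℕ) < k then a ⟨i, h⟩ else g₀)
      (fun i : Fin k => if h : (i : ℕ) < k then b ⟨i, h⟩ else g₀)
    have e1 : (fun i : Fin k => if h : (i : ℕ) < k then a ⟨i, h⟩ else g₀) = a := by
      funext i; rw [dif_pos i.2]
    have e2 : (fun i : Fin k => if h : (i : ℕ) < k then b ⟨i, h⟩ else g₀) = b := by
      funext i; rw [dif_pos i.2]
    rw [e1, e2]
    exact hab⟩
  let st : ∀ m, St m := fun m => Nat.rec (motive := St) s₀ (fun m p => nx m p) m
  have hst : ∀ m, st (m + 1) = nx m (st m) := fun m => rfl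
  have hmono : ∀ m m' i, m ≤ m' → i < k + m →
      (st m').1.1 i = (st m).1.1 i ∧ (st m').1.2 i = (st m).1.2 i := by
    intro m m' i hmm hi
    induction m', hmm using Nat.le_induction with
    | base => exact ⟨rfl, rfl⟩
    | succ m' hmm' ih =>
      have h1 := hnx1 m' (st m') i (by omega)
      rw [hst]
      exact ⟨h1.1.trans ih.1, h1.2.trans ih.2⟩
  refine ⟨fun i => (st (i + 1)).1.1 i, fun i => (st (i + 1)).1.2 i, ?_, ?_, ?_, ?_⟩
  · intro i
    have h1 := hmono 0 (i + 1) i (by omega) (by omega)
    change (st (i + 1)).1.1 i = a i ∧ (st (i + 1)).1.2 i = b i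
    rw [h1.1, h1.2]
    change (if h : (i : ℕ) < k then a ⟨i, h⟩ else g₀) = a i ∧
      (if h : (i : ℕ) < k then b ⟨i, h⟩ else g₀) = b i
    rw [dif_pos i.2, dif_pos i.2]
    exact ⟨rfl, rfl⟩
  · intro m
    have h1 : ∀ i : Fin (k + m), (st (i + 1)).1.1 i = (st m).1.1 i ∧
        (st (i + 1)).1.2 i = (st m).1.2 i := by
      intro i
      rcases le_total m (i + 1) with h | h
      · exact hmono m (i + 1) i h i.2
      · have := hmono (i + 1) m i h (by omega)
        exact ⟨this.1.symm, this.2.symm⟩
    have e1 : (fun i : Fin (k + m) => (st (i + 1)).1.1 i) = fun i : Fin (k + m) => (st m).1.1 i :=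
      funext fun i => (h1 i).1
    have e2 : (fun i : Fin (k + m) => (st (i + 1)).1.2 i) = fun i : Fin (k + m) => (st m).1.2 i :=
      funext fun i => (h1 i).2
    rw [e1, e2]
    exact (st m).2
  · intro g
    obtain ⟨j, rfl⟩ := he g
    refine ⟨k + 2 * j, ?_⟩
    have h1 := hmono (2 * j + 1) (k + 2 * j + 1) (k + 2 * j) (by omega) (by omega)
    change (st (k + 2 * j + 1)).1.1 (k + 2 * j) = e j
    rw [h1.1, hst]
    have h2 := hnx2 (2 * j) (st (2 * j)) (by omega)
    rw [h2]
    congr 1
    omega
  · intro g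
    obtain ⟨j, rfl⟩ := he g
    refine ⟨k + (2 * j + 1), ?_⟩
    have h1 := hmono (2 * j + 1 + 1) (k + (2 * j + 1) + 1) (k + (2 * j + 1)) (by omega) (by omega)
    change (st (k + (2 * j + 1) + 1)).1.2 (k + (2 * j + 1)) = e j
    rw [h1.2, hst]
    have h2 := hnx3 (2 * j + 1) (st (2 * j + 1)) (by omega)
    rw [h2]
    congr 1
    omega

end BF

end Pool.Agent.X225.Ef
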