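import Mathlib

/-!
# Saturation of ultrapowers, universality, homogeneous countable models
-/

namespace Pool.Agent.X225.Ef

open FirstOrder FirstOrder.Language Filter

section Basic

variable {L : FirstOrder.Language.{0, 0}}

/-- two tuples of the same finite length have the same complete type -/
def SameTp (L : FirstOrder.Language.{0, 0}) {M N : Type} [L.Structure M] [L.Structure N] {n : ℕ}
    (a : Fin n → M) (b : Fin n → N) : Prop :=
  ∀ φ : L.Formula (Fin n), φ.Realize a ↔ φ.Realize b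

theorem SameTp.symm {M N : Type} [L.Structure M] [L.Structure N] {n : ℕ}
    {a : Fin n → M} {b : Fin n → N} (h : SameTp L a b) : SameTp L b a := fun φ => (h φ).symm

theorem ex_iff {M N : Type} [L.Structure M] [L.Structure N]
    (h : L.completeTheory M = L.completeTheory N) {n : ℕ} (φ : L.Formula (Fin n)) :
    (∃ x : Fin n → M, φ.Realize x) ↔ ∃ x : Fin n → N, φ.Realize x := by
  let σ : L.Sentence := (φ.relabel (Sum.inr : Fin n → Empty ⊕ Fin n)).iExs (Fin n)
  have key : ∀ (K : Type) [L.Structure K], K ⊨ σ ↔ ∃ x : Fin n → K, φ.Realize x := by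
    intro K _
    change Formula.Realize σ _ ↔ _
    rw [Formula.realize_iExs]
    simp only [Formula.realize_relabel]
    rfl
  rw [← key M, ← key N, ← mem_completeTheory, ← mem_completeTheory, h]

theorem all_iff {M N : Type} [L.Structure M] [L.Structure N]
    (h : L.completeTheory M = L.completeTheory N) {n : ℕ} (φ : L.Formula (Fin n)) :
    (∀ x : Fin n → M, φ.Realize x) ↔ ∀ x : Fin n → N, φ.Realize x := by
  have := ex_iff h φ.not
  simp only [Formula.realize_not] at this
  have h1 := not_congr this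
  push Not at h1
  exact h1

/-- quantify the last variable -/
noncomputable def exLast {k : ℕ} (ψ : L.Formula (Fin (k + 1))) : L.Formula (Fin k) :=
  (ψ.relabel (Fin.snoc (Sum.inl : Fin k → Fin k ⊕ Unit) (Sum.inr ()) :
    Fin (k + 1) → Fin k ⊕ Unit)).iExs Unit

theorem realize_exLast {M : Type} [L.Structure M] {k : ℕ} (ψ : L.Formula (Fin (k + 1)))
    (a : Fin k → M) :
    (exLast ψ).Realize a ↔ ∃ y, ψ.Realize (Fin.snoc a y : Fin (k + 1) → M) := by
  unfold exLast
  rw [Formula.realize_iExs]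
  simp only [Formula.realize_relabel]
  have key : ∀ y : Unit → M, (Sum.elim a y ∘ (Fin.snoc (Sum.inl : Fin k → Fin k ⊕ Unit)
      (Sum.inr ()) : Fin (k + 1) → Fin k ⊕ Unit)) = (Fin.snoc a (y ()) : Fin (k + 1) → M) := by
    intro y
    funext i
    refine Fin.lastCases ?_ (fun i => ?_) i
    · simp
    · simp
  constructor
  · rintro ⟨y, hy⟩
    rw [key] at hy
    exact ⟨y (), hy⟩
  · rintro ⟨y, hy⟩
    refine ⟨fun _ => y, ?_⟩
    rw [key]
    exact hy

end Basic

section Ultra

variable {L : FirstOrder.Language.{0, 0}} (M : Type) [L.Structure M] [Nonempty M]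

/-- the ultrapower -/
abbrev UP (M : Type) : Type := (hyperfilter ℕ : Filter ℕ).Product (fun _ : ℕ => M)

variable {M}

/-- the class of a sequence -/
noncomputable def mkU (f : ℕ → M) : UP M :=
  @Quotient.mk' _ ((hyperfilter ℕ : Filter ℕ).productSetoid (fun _ : ℕ => M)) f

theorem ev_ge (i : ℕ) : ∀ᶠ j in (hyperfilter ℕ : Filter ℕ), i ≤ j :=
  (hyperfilter_le_cofinite.trans_eq Nat.cofinite_eq_atTop) (Filter.eventually_ge_atTop i)

omit [Nonempty M] in
theorem up_surj (y : UP M) : ∃ f : ℕ → M, mkU f = y :=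
  Quotient.exists_rep y

theorem up_tuple {k : ℕ} (c : Fin k → UP M) :
    ∃ f : Fin k → ℕ → M, c = fun i => mkU (f i) := by
  choose f hf using fun i => up_surj (c i)
  exact ⟨f, funext fun i => (hf i).symm⟩

theorem los {β : Type} (φ : L.Formula β) (x : β → ℕ → M) :
    (φ.Realize fun i => mkU (x i)) ↔
      ∀ᶠ j in (hyperfilter ℕ : Filter ℕ), φ.Realize fun i => x i j :=
  Ultraproduct.realize_formula_cast φ x

theorem up_elem : L.completeTheory (UP M) = L.completeTheory M := by
  ext φ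
  rw [mem_completeTheory, mem_completeTheory, Ultraproduct.sentence_realize, eventually_const]

theorem snoc_mk {k : ℕ} (f : Fin k → ℕ → M) (g : ℕ → M) :
    (Fin.snoc (fun i => mkU (f i)) (mkU g) : Fin (k + 1) → UP M) =
      fun i => mkU ((Fin.snoc f g : Fin (k + 1) → ℕ → M) i) := by
  funext i
  refine Fin.lastCases ?_ (fun i => ?_) i
  · simp
  · simp

theorem snoc_at {k : ℕ} (f : Fin k → ℕ → M) (g : ℕ → M) (j : ℕ) :
    (fun i => (Fin.snoc f g : Fin (k + 1) → ℕ → M) i j) =
      (Fin.snoc (fun i => f i j) (g j) : Fin (k + 1) → M) := by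
  funext i
  refine Fin.lastCases ?_ (fun i => ?_) i
  · simp
  · simp

/-- saturation of the ultrapower -/
theorem sat {k : ℕ} (c : Fin k → UP M) (Φ : ℕ → L.Formula (Fin (k + 1)))
    (h : ∀ n, ∃ y : UP M, ∀ i ≤ n, (Φ i).Realize (Fin.snoc c y : Fin (k + 1) → UP M)) :
    ∃ y : UP M, ∀ i, (Φ i).Realize (Fin.snoc c y : Fin (k + 1) → UP M) := by
  classical
  obtain ⟨f, rfl⟩ := up_tuple c
  let good : ℕ → ℕ → Prop := fun j n =>
    ∃ y : M, ∀ i ≤ n, (Φ i).Realize (Fin.snoc (fun l => f l j) y : Fin (k + 1) → M)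
  have hgood : ∀ n, ∀ᶠ j in (hyperfilter ℕ : Filter ℕ), good j n := by
    intro n
    obtain ⟨y, hy⟩ := h n
    obtain ⟨g, rfl⟩ := up_surj y
    have h1 : ∀ i ∈ Finset.range (n + 1), ∀ᶠ j in (hyperfilter ℕ : Filter ℕ),
        (Φ i).Realize (Fin.snoc (fun l => f l j) (g j) : Fin (k + 1) → M) := by
      intro i hi
      have h2 := hy i (Nat.lt_succ_iff.1 (Finset.mem_range.1 hi))
      rw [snoc_mk, los] at h2
      refine h2.mono fun j hj => ?_
      rwa [snoc_at] at hj
    have h3 := (Filter.eventually_all_finset (Finset.range (n + 1))).2 h1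
    refine h3.mono fun j hj => ?_
    exact ⟨g j, fun i hi => hj i (Finset.mem_range.2 (Nat.lt_succ_iff.2 hi))⟩
  let y : ℕ → M := fun j => if h : good j (Nat.findGreatest (good j) j) then h.choose
    else Classical.arbitrary M
  refine ⟨mkU y, fun i => ?_⟩
  rw [snoc_mk, los]
  have h4 : ∀ᶠ j in (hyperfilter ℕ : Filter ℕ), i ≤ j :=
    ev_ge i
  filter_upwards [h4, hgood i] with j hj1 hj2
  rw [snoc_at]
  have h5 : good j (Nat.findGreatest (good j) j) := Nat.findGreatest_spec hj1 hj2
  have h6 : y j = h5.choose := dif_pos h5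
  rw [h6]
  exact h5.choose_spec i (Nat.le_findGreatest hj1 hj2)

/-- weak homogeneity of the ultrapower -/
theorem up_hom [Countable L.Symbols] {k : ℕ} (a b : Fin k → UP M) (h : SameTp L a b) (c : UP M) :
    ∃ d : UP M, SameTp L (Fin.snoc a c : Fin (k + 1) → UP M) (Fin.snoc b d : Fin (k + 1) → UP M) := by
  classical
  haveI : Nonempty (L.Formula (Fin (k + 1))) := ⟨⊤⟩
  obtain ⟨e, he⟩ := exists_surjective_nat (L.Formula (Fin (k + 1)))
  let Φ : ℕ → L.Formula (Fin (k + 1)) := fun i =>
    if (e i).Realize (Fin.snoc a c : Fin (k + 1) → UP M) then e i else (e i).not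
  have hΦ : ∀ i, (Φ i).Realize (Fin.snoc a c : Fin (k + 1) → UP M) := by
    intro i
    by_cases h1 : (e i).Realize (Fin.snoc a c : Fin (k + 1) → UP M)
    · simp only [Φ, if_pos h1]; exact h1
    · simp only [Φ, if_neg h1]; exact h1
  obtain ⟨d, hd⟩ := sat b Φ (by
    intro n
    let ψ : L.Formula (Fin (k + 1)) := Formula.iInf fun i : Fin (n + 1) => Φ i
    have h1 : (exLast ψ).Realize a := by
      rw [realize_exLast]
      refine ⟨c, ?_⟩
      rw [Formula.realize_iInf]
      exact fun i => hΦ i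
    rw [h, realize_exLast] at h1
    obtain ⟨y, hy⟩ := h1
    rw [Formula.realize_iInf] at hy
    exact ⟨y, fun i hi => hy ⟨i, Nat.lt_succ_iff.2 hi⟩⟩)
  refine ⟨d, fun φ => ?_⟩
  obtain ⟨i, rfl⟩ := he φ
  have h2 := hd i
  by_cases h1 : (e i).Realize (Fin.snoc a c : Fin (k + 1) → UP M)
  · simp only [Φ, if_pos h1] at h2
    exact ⟨fun _ => h2, fun _ => h1⟩
  · simp only [Φ, if_neg h1] at h2
    exact ⟨fun h3 => absurd h3 h1, fun h3 => absurd h3 h2⟩

/-- every countable structure which is elementarily equivalent to `M` embeds elementarily into the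
ultrapower of `M` -/
theorem up_univ [Countable L.Symbols] (K : Type) [L.Structure K] [Countable K]
    (h : L.completeTheory K = L.completeTheory M) :
    ∃ F : K → UP M, ∀ (n : ℕ) (φ : L.Formula (Fin n)) (x : Fin n → K),
      φ.Realize (F ∘ x) ↔ φ.Realize x := by
  classical
  haveI : Nonempty K := by
    have := (ex_iff h (n := 1) (⊤ : L.Formula (Fin 1))).2 ⟨fun _ => Classical.arbitrary M, by simp⟩
    obtain ⟨x, _⟩ := this
    exact ⟨x 0⟩
  obtain ⟨e, he⟩ := exists_surjective_nat K
  haveI : Nonempty (Σ n : ℕ, L.Formula (Fin n)) := ⟨⟨0, ⊤⟩⟩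
  haveI : Countable (Σ n : ℕ, L.Formula (Fin n)) := inferInstance
  obtain ⟨t, ht⟩ := exists_surjective_nat (Σ n : ℕ, L.Formula (Fin n))
  have hx : ∀ n : ℕ, ∃ x : ℕ → M, ∀ i ≤ n,
      (t i).2.Realize (fun l : Fin (t i).1 => x l) ↔ (t i).2.Realize (fun l : Fin (t i).1 => e l) := by
    intro n
    let m : ℕ := (Finset.range (n + 1)).sup fun i => (t i).1
    have hm : ∀ i : Fin (n + 1), (t i).1 ≤ m := fun i =>
      Finset.le_sup (f := fun i => (t i).1) (Finset.mem_range.2 i.2)
    let ψ : L.Formula (Fin m) := Formula.iInf fun i : Fin (n + 1) =>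
      if (t i).2.Realize (fun l : Fin (t i).1 => e l) then (t i).2.relabel (Fin.castLE (hm i))
      else ((t i).2.relabel (Fin.castLE (hm i))).not
    have h1 : ψ.Realize (fun l : Fin m => e l) := by
      rw [Formula.realize_iInf]
      intro i
      by_cases h2 : (t i).2.Realize (fun l : Fin (t i).1 => e l)
      · rw [if_pos h2, Formula.realize_relabel]; exact h2
      · rw [if_neg h2, Formula.realize_not, Formula.realize_relabel]; exact h2
    obtain ⟨x, hx⟩ := (ex_iff h ψ).1 ⟨_, h1⟩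
    rw [Formula.realize_iInf] at hx
    refine ⟨fun l => if hl : l < m then x ⟨l, hl⟩ else Classical.arbitrary M, ?_⟩
    intro i hi
    have h3 := hx ⟨i, Nat.lt_succ_iff.2 hi⟩
    have h4 : (x ∘ Fin.castLE (hm ⟨i, Nat.lt_succ_iff.2 hi⟩)) =
        fun l : Fin (t i).1 => if hl : (l : ℕ) < m then x ⟨l, hl⟩ else Classical.arbitrary M := by
      funext l
      have hl : (l : ℕ) < m := lt_of_lt_of_le l.2 (hm ⟨i, Nat.lt_succ_iff.2 hi⟩)
      rw [dif_pos hl]; rfl
    by_cases h2 : (t i).2.Realize (fun l : Fin (t i).1 => e l)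
    · rw [if_pos h2, Formula.realize_relabel, h4] at h3
      exact ⟨fun _ => h2, fun _ => h3⟩
    · rw [if_neg h2, Formula.realize_not, Formula.realize_relabel, h4] at h3
      exact ⟨fun h5 => absurd h5 h3, fun h5 => absurd h5 h2⟩
  choose X hX using hx
  choose idx hidx using he
  refine ⟨fun q => mkU fun n => X n (idx q), ?_⟩
  intro n φ x
  change (φ.Realize fun l => mkU (fun n => X n (idx (x l)))) ↔ _
  rw [los]
  let m : ℕ := (Finset.univ.sup fun l : Fin n => idx (x l)) + 1
  have hm : ∀ l : Fin n, idx (x l) < m := fun l =>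
    Nat.lt_succ_iff.2 (Finset.le_sup (f := fun l : Fin n => idx (x l)) (Finset.mem_univ l))
  obtain ⟨i, hi⟩ := ht ⟨m, φ.relabel fun l => ⟨idx (x l), hm l⟩⟩
  have h4 : ∀ᶠ j in (hyperfilter ℕ : Filter ℕ), i ≤ j :=
    ev_ge i
  have h5 : ∀ j, i ≤ j → ((φ.Realize fun l => X j (idx (x l))) ↔ φ.Realize x) := by
    intro j hj
    have h6 := hX j i hj
    rw [hi] at h6
    simp only [Formula.realize_relabel] at h6
    have h7 : ((fun l : Fin m => e l) ∘ fun l : Fin n => (⟨idx (x l), hm l⟩ : Fin m)) = x := by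
      funext l
      exact hidx (x l)
    rw [h7] at h6
    exact h6
  constructor
  · intro h8
    obtain ⟨j, h9, h10⟩ := (h4.and h8).exists
    exact (h5 j h9).1 h10
  · intro h8
    exact h4.mono fun j hj => (h5 j hj).2 h8

end Ultra

end Pool.Agent.X225.Ef
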