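import Pool.Agent.X225.Ef.Grp

/-!
# Finitely generated elementary free groups contain no free abelian group of rank two
-/

namespace Pool.Agent.X225.Ef

open FirstOrder FirstOrder.Language Filter

/-- commutation is transitive in elementary free groups -/
theorem comm_trans {K : Type} [Group K] (hK : ElemFree K) {a x y : K} (ha : a ≠ 1)
    (hx : a * x = x * a) (hy : a * y = y * a) : x * y = y * x := by
  let v : Fin 3 → Lg.Term (Fin 3) := fun i => Term.var i
  let φ : Lg.Formula (Fin 3) :=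
    (Term.equal (v 0) oneT).not ⊓ (Term.equal (mulT (v 0) (v 1)) (mulT (v 1) (v 0)) ⊓
      (Term.equal (mulT (v 0) (v 2)) (mulT (v 2) (v 0)) ⊓
        (Term.equal (mulT (v 1) (v 2)) (mulT (v 2) (v 1))).not))
  by_contra h
  have h1 : φ.Realize (![a, x, y] : Fin 3 → K) := by
    simp only [φ, v, Formula.realize_inf, Formula.realize_not, Formula.realize_equal,
      realize_mulT, realize_oneT]
    exact ⟨ha, hx, hy, h⟩
  obtain ⟨t, ht⟩ := (ex_iff hK φ).1 ⟨_, h1⟩
  simp only [φ, v, Formula.realize_inf, Formula.realize_not, Formula.realize_equal,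
      realize_mulT, realize_oneT] at ht
  obtain ⟨h2, h3, h4, h5⟩ := ht
  apply h5
  obtain ⟨c, hc⟩ := exists_root (G := F2) h2
  obtain ⟨k, hk⟩ := hc _ h3
  obtain ⟨l, hl⟩ := hc _ h4
  rw [hk, hl, ← zpow_add, ← zpow_add, add_comm]

/-- centralizers in elementary free groups have 2-rank at most one -/
theorem two_rank {K : Type} [Group K] (hK : ElemFree K) {a x y : K} (ha : a ≠ 1)
    (hx : a * x = x * a) (hy : a * y = y * a) :
    ∃ z, a * z = z * a ∧ (x = z * z ∨ y = z * z ∨ x * y = z * z) := by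
  let v : Fin 3 → Lg.Term (Fin 3 ⊕ Fin 1) := fun i => Term.var (Sum.inl i)
  let z : Lg.Term (Fin 3 ⊕ Fin 1) := Term.var (Sum.inr 0)
  let v' : Fin 3 → Lg.Term (Fin 3) := fun i => Term.var i
  let ψ : Lg.Formula (Fin 3 ⊕ Fin 1) :=
    Term.equal (mulT (v 0) z) (mulT z (v 0)) ⊓ (Term.equal (v 1) (mulT z z) ⊔
      (Term.equal (v 2) (mulT z z) ⊔ Term.equal (mulT (v 1) (v 2)) (mulT z z)))
  let φ : Lg.Formula (Fin 3) :=
    (Term.equal (v' 0) oneT).not ⊓ (Term.equal (mulT (v' 0) (v' 1)) (mulT (v' 1) (v' 0)) ⊓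
      (Term.equal (mulT (v' 0) (v' 2)) (mulT (v' 2) (v' 0)) ⊓ (ψ.iExs (Fin 1)).not))
  have real : ∀ (G : Type) [Group G] (t : Fin 3 → G), φ.Realize t ↔
      (t 0 ≠ 1 ∧ t 0 * t 1 = t 1 * t 0 ∧ t 0 * t 2 = t 2 * t 0 ∧
        ¬ ∃ z, t 0 * z = z * t 0 ∧ (t 1 = z * z ∨ t 2 = z * z ∨ t 1 * t 2 = z * z)) := by
    intro G _ t
    simp only [φ, v', ψ, v, z, Formula.realize_inf, Formula.realize_not, Formula.realize_equal,
      realize_mulT, realize_oneT, Formula.realize_iExs, Formula.realize_sup]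
    constructor
    · rintro ⟨h1, h2, h3, h4⟩
      refine ⟨h1, h2, h3, ?_⟩
      rintro ⟨z, hz⟩
      exact h4 ⟨fun _ => z, hz⟩
    · rintro ⟨h1, h2, h3, h4⟩
      refine ⟨h1, h2, h3, ?_⟩
      rintro ⟨z, hz⟩
      exact h4 ⟨z 0, hz⟩
  by_contra h
  have h1 : φ.Realize (![a, x, y] : Fin 3 → K) := (real K _).2 ⟨ha, hx, hy, h⟩
  obtain ⟨t, ht⟩ := (ex_iff hK φ).1 ⟨_, h1⟩
  obtain ⟨h2, h3, h4, h5⟩ := (real F2 t).1 ht
  apply h5
  obtain ⟨c, hc⟩ := exists_root (G := F2) h2
  obtain ⟨k, hk⟩ := hc _ h3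
  obtain ⟨l, hl⟩ := hc _ h4
  obtain ⟨m, hm⟩ := hc (t 0) rfl
  rcases Int.even_or_odd k with ⟨k', hk'⟩ | ⟨k', hk'⟩
  · refine ⟨c ^ k', ?_, Or.inl ?_⟩
    · rw [hm, ← zpow_add, ← zpow_add, add_comm]
    · rw [hk, ← zpow_add, hk']
  · rcases Int.even_or_odd l with ⟨l', hl'⟩ | ⟨l', hl'⟩
    · refine ⟨c ^ l', ?_, Or.inr (Or.inl ?_)⟩
      · rw [hm, ← zpow_add, ← zpow_add, add_comm]
      · rw [hl, ← zpow_add, hl']
    · refine ⟨c ^ (k' + l' + 1), ?_, Or.inr (Or.inr ?_)⟩
      · rw [hm, ← zpow_add, ← zpow_add, add_comm]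
      · rw [hk, hl, ← zpow_add, ← zpow_add, hk', hl']
        congr 1
        ring

/-- a homomorphism to the free group yields an integral character of a centralizer -/
theorem character {K : Type} [Group K] (φ : K →* F2) {a : K} (ha : φ a ≠ 1) :
    ∃ f : K → ℤ, (∀ x y, a * x = x * a → a * y = y * a → f (x * y) = f x + f y) ∧
      ∀ x, a * x = x * a → (φ x = 1 ↔ f x = 0) := by
  classical
  obtain ⟨c, hc⟩ := exists_root ha
  have hc1 : c ≠ 1 := by
    rintro rfl
    obtain ⟨k, hk⟩ := hc (φ a) rfl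
    rw [one_zpow] at hk
    exact ha hk
  have inj : ∀ k l : ℤ, c ^ k = c ^ l → k = l := by
    intro k l h
    by_contra hne
    apply pow_ne_one_of hc1 (sub_ne_zero.2 hne)
    rw [zpow_sub, h, mul_inv_cancel]
  have hex : ∀ x, a * x = x * a → ∃ k : ℤ, φ x = c ^ k := by
    intro x hx
    apply hc
    rw [← map_mul, hx, map_mul]
  let f : K → ℤ := fun x => if h : ∃ k : ℤ, φ x = c ^ k then h.choose else 0
  have hf : ∀ x, a * x = x * a → φ x = c ^ f x := by
    intro x hx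
    simp only [f]
    rw [dif_pos (hex x hx)]
    exact (hex x hx).choose_spec
  refine ⟨f, ?_, ?_⟩
  · intro x y hx hy
    apply inj
    rw [zpow_add, ← hf x hx, ← hf y hy, ← map_mul]
    exact (hf (x * y) (by rw [← mul_assoc, hx, mul_assoc, hy, mul_assoc])).symm
  · intro x hx
    constructor
    · intro h
      apply inj
      rw [← hf x hx, h, zpow_zero]
    · intro h
      rw [hf x hx, h, zpow_zero]

/-- **A finitely generated elementary free group contains no free abelian group of rank two.** -/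
theorem no_zz {K : Type} [Group K] (hK : ElemFree K) (hfg : Group.FG K) {a b : K}
    (hab : a * b = b * a) : ∃ i j : ℤ, (i ≠ 0 ∨ j ≠ 0) ∧ a ^ i * b ^ j = 1 := by
  by_contra hcon
  push Not at hcon
  have ha : a ≠ 1 := by
    intro h
    exact hcon 1 0 (Or.inl one_ne_zero) (by simp [h])
  obtain ⟨φ₁, hφ₁⟩ := residual hK hfg ha
  obtain ⟨f₁, hf₁, hf₁'⟩ := character φ₁ hφ₁
  have hfa : f₁ a ≠ 0 := fun h => hφ₁ ((hf₁' a rfl).2 h)
  have ha' : a ^ (f₁ b) * b ^ (-f₁ a) ≠ 1 := hcon _ _ (Or.inr (neg_ne_zero.2 hfa))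
  obtain ⟨φ₂, hφ₂⟩ := residual hK hfg ha'
  obtain ⟨f₂, hf₂, hf₂'⟩ := character φ₂ hφ₂
  -- everything commuting with `a` commutes with the new element
  have hcb : ∀ x, a * x = x * a → b * x = x * b := fun x hx => comm_trans hK ha hab hx
  have hcx : ∀ x, a * x = x * a →
      (a ^ (f₁ b) * b ^ (-f₁ a)) * x = x * (a ^ (f₁ b) * b ^ (-f₁ a)) := by
    intro x hx
    have h1 : Commute a x := hx
    have h2 : Commute b x := hcb x hx
    exact ((h1.zpow_left _).mul_left (h2.zpow_left _)).eq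
  -- additivity of both characters on the centralizer of `a`
  have pw : ∀ (f : K → ℤ), (∀ x y, a * x = x * a → a * y = y * a → f (x * y) = f x + f y) →
      ∀ x, a * x = x * a → ∀ k : ℤ, f (x ^ k) = k * f x := by
    intro f hf x hx k
    have hx' : Commute a x := hx
    have h1 : f 1 = 0 := by
      have := hf 1 1 (by simp) (by simp)
      rw [mul_one] at this
      omega
    have hn : ∀ n : ℕ, f (x ^ n) = n * f x := by
      intro n
      induction n with
      | zero => simp [h1]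
      | succ n ih =>
        rw [pow_succ, hf _ _ (hx'.pow_right n).eq hx, ih]
        push_cast; ring
    rcases Int.eq_nat_or_neg k with ⟨n, rfl | rfl⟩
    · rw [zpow_natCast, hn]
    · have h2 := hf (x ^ (-(n : ℤ))) (x ^ n) (hx'.zpow_right _).eq (hx'.pow_right n).eq
      rw [zpow_neg, zpow_natCast, inv_mul_cancel, h1, hn] at h2
      rw [zpow_neg, zpow_natCast]
      linarith
  have hf₂a : ∀ x y, a * x = x * a → a * y = y * a → f₂ (x * y) = f₂ x + f₂ y :=
    fun x y hx hy => hf₂ x y (hcx x hx) (hcx y hy)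
  have key : f₁ a * f₂ b - f₁ b * f₂ a ≠ 0 := by
    intro h
    apply hφ₂
    rw [hf₂' _ rfl]
    have haa : Commute a a := Commute.refl a
    have hab' : Commute a b := hab
    rw [hf₂a _ _ (haa.zpow_right _).eq (hab'.zpow_right _).eq, pw f₂ hf₂a a rfl, pw f₂ hf₂a b hab]
    linarith
  -- descent
  have desc : ∀ n : ℕ, ∀ x y : K, a * x = x * a → a * y = y * a →
      (f₁ x * f₂ y - f₁ y * f₂ x).natAbs = n → n ≠ 0 → False := by
    intro n
    induction n using Nat.strong_induction_on with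
    | _ n ih =>
      intro x y hx hy hn hn0
      obtain ⟨z, hz, h | h | h⟩ := two_rank hK ha hx hy
      · have e1 : f₁ x = 2 * f₁ z := by rw [h, hf₁ _ _ hz hz]; ring
        have e2 : f₂ x = 2 * f₂ z := by rw [h, hf₂a _ _ hz hz]; ring
        rw [e1, e2] at hn
        have e3 : 2 * f₁ z * f₂ y - f₁ y * (2 * f₂ z) = 2 * (f₁ z * f₂ y - f₁ y * f₂ z) := by ring
        rw [e3, Int.natAbs_mul] at hn
        exact ih (f₁ z * f₂ y - f₁ y * f₂ z).natAbs (by simp at hn; omega) z y hz hy rfl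
          (by simp at hn; omega)
      · have e1 : f₁ y = 2 * f₁ z := by rw [h, hf₁ _ _ hz hz]; ring
        have e2 : f₂ y = 2 * f₂ z := by rw [h, hf₂a _ _ hz hz]; ring
        rw [e1, e2] at hn
        have e3 : f₁ x * (2 * f₂ z) - 2 * f₁ z * f₂ x = 2 * (f₁ x * f₂ z - f₁ z * f₂ x) := by ring
        rw [e3, Int.natAbs_mul] at hn
        exact ih (f₁ x * f₂ z - f₁ z * f₂ x).natAbs (by simp at hn; omega) x z hx hz rfl
          (by simp at hn; omega)
      · have e1 : f₁ x + f₁ y = 2 * f₁ z := by rw [← hf₁ _ _ hx hy, h, hf₁ _ _ hz hz]; ring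
        have e2 : f₂ x + f₂ y = 2 * f₂ z := by rw [← hf₂a _ _ hx hy, h, hf₂a _ _ hz hz]; ring
        have e1' : f₁ y = 2 * f₁ z - f₁ x := by linarith
        have e2' : f₂ y = 2 * f₂ z - f₂ x := by linarith
        rw [e1', e2'] at hn
        have e3 : f₁ x * (2 * f₂ z - f₂ x) - (2 * f₁ z - f₁ x) * f₂ x =
          2 * (f₁ x * f₂ z - f₁ z * f₂ x) := by ring
        rw [e3, Int.natAbs_mul] at hn
        exact ih (f₁ x * f₂ z - f₁ z * f₂ x).natAbs (by simp at hn; omega) x z hx hz rfl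
          (by simp at hn; omega)
  exact desc _ a b rfl hab rfl (by
    intro h
    exact key (Int.natAbs_eq_zero.1 h))

/-! ### the elements of the ultrapower -/

/-- the pair of elements of the ultrapower generating a free abelian group of rank two -/
noncomputable def zz : Fin 2 → UP F2 :=
  ![mkU (fun _ => FreeGroup.of 0), mkU (fun n => (FreeGroup.of 0 : F2) ^ (n : ℤ))]

theorem zz_eqn (w : FreeGroup (Fin 2)) : (eqn w).Realize zz ↔
    ∀ᶠ n : ℕ in (hyperfilter ℕ : Filter ℕ),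
      FreeGroup.lift (![FreeGroup.of 0, (FreeGroup.of 0 : F2) ^ (n : ℤ)]) w = 1 := by
  have h1 : zz = fun i => mkU ((![fun _ => FreeGroup.of 0, fun n => (FreeGroup.of 0 : F2) ^ (n : ℤ)] :
      Fin 2 → ℕ → F2) i) := by
    funext i
    fin_cases i <;> rfl
  rw [h1, los]
  apply Filter.eventually_congr
  refine Eventually.of_forall fun n => ?_
  rw [realize_eqn]
  have h2 : (fun i => (![fun _ => FreeGroup.of 0, fun n => (FreeGroup.of 0 : F2) ^ (n : ℤ)] :
      Fin 2 → ℕ → F2) i n) = ![FreeGroup.of 0, (FreeGroup.of 0 : F2) ^ (n : ℤ)] := by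
    funext i
    fin_cases i <;> rfl
  rw [h2]

theorem zz_comm : (eqn (FreeGroup.of 0 * FreeGroup.of 1 * (FreeGroup.of 0)⁻¹ * (FreeGroup.of 1)⁻¹ :
    FreeGroup (Fin 2))).Realize zz := by
  rw [zz_eqn]
  refine Eventually.of_forall fun n => ?_
  simp only [map_mul, FreeGroup.lift_apply_of, map_inv, Matrix.cons_val_zero, Matrix.cons_val_one]
  rw [mul_inv_eq_one, mul_inv_eq_iff_eq_mul]
  exact (Commute.zpow_right (Commute.refl _) _).eq

theorem zz_free (i j : ℤ) (h : (eqn ((FreeGroup.of 0) ^ i * (FreeGroup.of 1) ^ j :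
    FreeGroup (Fin 2))).Realize zz) : i = 0 ∧ j = 0 := by
  rw [zz_eqn] at h
  have h1 : ∀ n : ℕ, FreeGroup.lift (![FreeGroup.of 0, (FreeGroup.of 0 : F2) ^ (n : ℤ)])
      ((FreeGroup.of 0) ^ i * (FreeGroup.of 1) ^ j : FreeGroup (Fin 2)) = 1 → i + n * j = 0 := by
    intro n hn
    simp only [map_mul, map_zpow, FreeGroup.lift_apply_of, Matrix.cons_val_zero,
      Matrix.cons_val_one] at hn
    rw [← zpow_mul, ← zpow_add] at hn
    by_contra hne
    exact pow_ne_one_of (FreeGroup.of_ne_one (0 : Fin 2)) hne hn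
  obtain ⟨n, hn⟩ := h.exists
  obtain ⟨m, hm1, hm2⟩ := (h.and (ev_ge (n + 1))).exists
  have e1 := h1 n hn
  have e2 := h1 m hm1
  have e3 : ((m : ℤ) - n) * j = 0 := by linarith
  have e4 : j = 0 := by
    rcases mul_eq_zero.1 e3 with h5 | h5
    · omega
    · exact h5
  rw [e4, mul_zero, add_zero] at e1
  exact ⟨e1, e4⟩

end Pool.Agent.X225.Ef
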